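import Pool.Agent.H97.PRK.Targets
import Pool.Agent.H33.HD.VD

/-!
# MP_e37c09_lc, module NU: small unions and diagonal unions of null classes of small sets are null
-/

open Ordinal Cardinal Order Set
open scoped ZFSet

universe u

namespace Pool.Agent.H15.PRK

open _root_.HD HD.PRK

private theorem nu_mono {μ ρ : Ordinal.{u}} {C D : Set Ordinal.{u}} {x : ZFSet.{u}}
    (h : SmS μ ρ C x) (hCD : ∀ a < ρ, a.toZFSet ∈ x → a ∈ C → a ∈ D) : SmS μ ρ D x := by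
  refine ⟨h.ne, fun z hz => ?_, h.few⟩
  obtain ⟨a, ha, haC, hac, rfl⟩ := h.mem z hz
  exact ⟨a, ha, hCD a ha hz haC, hac, rfl⟩

private theorem nu_club {μ ρ : Ordinal.{u}} {P : ZFSet.{u} → Prop} (h : ¬ PosX μ ρ P) :
    ∃ C, Clb ρ C ∧ ∀ x, SmS μ ρ C x → ¬ P x := by
  unfold PosX at h
  push Not at h
  exact h

private theorem nu_one (h : _root_.HD.PRK.T_CI.{u}) : T_NU1.{u} := by
  intro μ K hK h0 ι P hι hP hpos
  have h1 : ∀ i, ∃ C, Clb K.ord C ∧ ∀ x, SmS μ K.ord C x → ¬ P i x := fun i => nu_club (hP i)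
  choose C hC1 hC2 using h1
  obtain ⟨c, hc⟩ := Cardinal.mem_range_lift_of_le hι.le
  have hcK : c < K := by
    rw [← hc] at hι
    exact Cardinal.lift_lt.1 hι
  have e : #ι = #(Iio c.ord) := by
    rw [Cardinal.mk_Iio_ordinal, card_ord, hc]
  obtain ⟨e⟩ := Cardinal.eq.1 e
  classical
  obtain ⟨x, hx, i, hi⟩ := hpos _ (h K hK h0 c.ord (ord_lt_ord.2 hcK)
    (fun a => if ha : a < c.ord then C (e.symm ⟨a, ha⟩) else univ) (fun a ha => by
      simp only [ha, dif_pos]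
      exact hC1 _))
  refine hC2 i x (nu_mono hx fun a _ _ ha => ?_) hi
  have h2 := ha (e i).1 (e i).2
  have h3 : (e i).1 < c.ord := (e i).2
  simpa only [h3, dif_pos, Subtype.coe_eta, Equiv.symm_apply_apply] using h2

private theorem nu_two : T_NU2.{u} := by
  intro μ K hK h0 P hP
  have h1 : ∀ n, ∃ C, Clb K.ord C ∧ (n < K.ord → ∀ x, SmS μ K.ord C x → ¬ P n x) := by
    intro n
    by_cases hn : n < K.ord
    · obtain ⟨C, hC, h⟩ := nu_club (hP n hn)
      exact ⟨C, hC, fun _ => h⟩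
    · refine ⟨univ, ⟨fun a ha => ?_, fun _ _ _ _ => mem_univ _⟩, fun h => absurd h hn⟩
      have hlim : IsSuccLimit K.ord := isSuccLimit_ord hK.aleph0_le
      exact ⟨a + 1, hlim.add_one_lt ha, lt_add_one a, mem_univ _⟩
  choose C hC1 hC2 using h1
  refine ⟨_, Pool.Agent.H33.HD.VD.diag hK h0 C fun a _ => hC1 a, fun x hx n hn => ?_⟩
  obtain ⟨z, hz⟩ := hx.ne
  obtain ⟨b, hb, -, -, rfl⟩ := hx.mem z hz
  refine hC2 n ((hn b hz).trans hb) x (nu_mono hx fun a _ hax ha => ha.2 n (hn a hax))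

theorem pf_NU (h : _root_.HD.PRK.T_CI.{u}) : T_NU1.{u} ∧ T_NU2.{u} := ⟨nu_one h, nu_two⟩

end Pool.Agent.H15.PRK
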