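import Pool.Agent.H97.PRK.Targets
import Pool.Agent.H87.HD.XF

/-!
# MP_e37c09_lc, module CON: the contradiction
-/

open Ordinal Cardinal Order Set
open scoped ZFSet

universe u

namespace Pool.Agent.H15.PRK

open _root_.HD HD.PRK

/-- the splitting points form a definable class -/
private theorem con_ds (h0 : T_LOC.{u}) {F : ZFSet.{u}} (hF : OD F) (μ ρ : Ordinal.{u}) :
    DS {i | Spl μ ρ F i} := by
  have hP := h0.dz
  have h1 := hP.ren (fun n => if n = 0 then 1 else if n = 1 then 2 else if n = 2 then 0 else n)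
  have h2 : DZ.{u} fun v => (v 0).IsOrdinal ∧ (v 1).IsOrdinal ∧ (v 2).IsOrdinal ∧
      Spl (v 0).rank (v 1).rank F (v 2).rank :=
    DZ.od (R := fun f v => (v 0).IsOrdinal ∧ (v 1).IsOrdinal ∧ (v 2).IsOrdinal ∧
      Spl (v 0).rank (v 1).rank f (v 2).rank) hF h1
  have h3 : DO.{u} fun w => Spl (w 0) (w 1) F (w 2) := by
    refine h2.do.congr fun w => ?_
    simp only [ov, ZFSet.isOrdinal_toZFSet, rank_toZFSet, true_and]
  have h4 := DO.sub (R := fun m w => Spl m (w 0) F (w 1)) μ h3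
  exact DO.sub (R := fun r w => Spl μ r F (w 0)) ρ h4

theorem pf_CON (h0 : T_LOC.{u}) (h1 : T_CNA.{u}) (h2 : T_CNB.{u}) : T_CON.{u} := by
  intro δ η θ j K μ ρ F hs hδ hF α hα hlim hδα hcf hnth
  obtain ⟨-, hmono, -, -⟩ := All.vh (SpS μ K.ord F)
  choose! y hy using hnth
  have hyK : ∀ a < α, y a < K.ord := fun a ha => (hy a ha).1.1
  -- the supremum
  have hne : K.ord ∈ {l | ∀ a < α, y a < l} := hyK
  set lam : Ordinal.{u} := sInf {l | ∀ a < α, y a < l} with hlam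
  have hlt : ∀ a < α, y a < lam := csInf_mem (s := {l | ∀ a < α, y a < l}) ⟨_, hne⟩
  have hle : lam ≤ K.ord := csInf_le' hne
  have hinc : ∀ a b, a < b → b < α → y a < y b := fun a b hab hb =>
    (hmono a b (y a) (y b) (hy a (hab.trans hb)) (hy b hb)).1 hab
  have hcof : ∀ z < lam, ∃ a < α, z < y a := by
    intro z hz
    have h3 : z ∉ {l | ∀ a < α, y a < l} := notMem_of_lt_csInf' hz
    simp only [mem_ofPred_eq, not_forall, not_lt] at h3
    obtain ⟨a, ha, h4⟩ := h3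
    exact ⟨succ a, hlim.succ_lt ha, h4.trans_lt (hinc a _ (lt_succ a) (hlim.succ_lt ha))⟩
  have hllim : IsSuccLimit lam := by
    refine ⟨?_, isSuccPrelimit_of_succ_lt fun z hz => ?_⟩
    · intro hmin
      exact absurd (hlt 0 hlim.bot_lt) (not_lt.2 (hmin bot_le |>.trans bot_le))
    · obtain ⟨a, ha, h3⟩ := hcof z hz
      exact (succ_le_of_lt h3).trans_lt (hlt a ha)
  have hce : α.cof = lam.cof := Pool.Agent.H87.HD.XF.cof_eq y hinc hlt hcof
  have hlc : lam.cof.ord < δ := by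
    rw [← hce]
    exact hcf
  obtain ⟨ρ0, hr1, hr2⟩ := h1 δ η θ j K μ ρ F hs hδ lam hle hllim hlc fun z hz => by
    obtain ⟨a, ha, h3⟩ := hcof z hz
    exact ⟨y a, h3, hlt a ha, (hy a ha).1.2⟩
  have hδc : δ ≤ α.card.ord := by
    calc δ = δ.cof.ord := hδ.symm
      _ ≤ δ.card.ord := Cardinal.ord_le_ord.2 (Ordinal.cof_le_card δ)
      _ ≤ α.card.ord := Cardinal.ord_le_ord.2 (Ordinal.card_le_card hδα.le)
  have hS : DS (SpS μ K.ord F) := (DO.ltc 0 K.ord).and (con_ds h0 hF μ K.ord)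
  refine h2 (SpS μ K.ord F) {i | Spl μ ρ0 F i} α δ lam hS (con_ds h0 hF μ ρ0) hα hlim hδc
    (fun a ha => ⟨y a, hlt a ha, hy a ha⟩) (fun z hz => ?_) (fun z hz => ?_) ?_
  · obtain ⟨a, ha, h3⟩ := hcof z hz
    exact ⟨a, ha, y a, hy a ha, h3⟩
  · obtain ⟨i, h3, h4, h5⟩ := hr1 z hz
    exact ⟨i, h5, h3, h4⟩
  · obtain ⟨τ, h3, e, h4⟩ := hr2
    exact ⟨τ, h3, e, fun x hx => h4 x ⟨hx.2, hx.1⟩⟩

end Pool.Agent.H15.PRK
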